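import Pool.Agent.Lib.MP_4dc748_co.LL.Link

/-!
# Blocking sets with at most 7 points in the plane of order 4

A set of at most 6 points which meets every line contains a line; a set of 7 points which meets every line contains a
line, or each of its points is on a tangent. Kernel search over partial sets, with bit masks.
-/

set_option autoImplicit false

namespace Pool.Agent.Lib.MP_4dc748_co.CL

open Pool.Agent.Lib.MP_4dc748_co.RS Pool.Agent.Lib.MP_4dc748_co.LL

/-- The masks of the lines. -/
def lmT : List (ℕ × Fin 21) :=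
  [(0x22222, 0), (0x1e1, 1), (0x108424, 2), (0x85030, 3), (0x50828, 4), (0x1f, 5), (0x44442, 6), (0x111102, 7),
   (0x88882, 8), (0x1e01, 9), (0x90244, 10), (0x48310, 11), (0x104288, 12), (0x1e0001, 13), (0x29048, 14),
   (0x24904, 15), (0x30490, 16), (0x1e001, 17), (0x102850, 18), (0x82508, 19), (0x43084, 20)]

/-- The first line which is not met. -/
def fnd (C : ℕ) : List (ℕ × Fin 21) → Option (Fin 21)
  | [] => none
  | x :: t => cond (Nat.beq (Nat.land C x.1) 0) (some x.2) (fnd C t)

/-- Some line is contained. -/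
def full (C : ℕ) : List (ℕ × Fin 21) → Bool
  | [] => false
  | x :: t => cond (Nat.beq (Nat.land C x.1) x.1) true (full C t)

/-- Some line meets the set exactly in the given point. -/
def tg (C b : ℕ) : List (ℕ × Fin 21) → Bool
  | [] => false
  | x :: t => cond (Nat.beq (Nat.land C x.1) b) true (tg C b t)

/-- Each point of the set is on a tangent. -/
def tang (C : ℕ) : Bool := (List.range 21).all (fun p => !(Nat.testBit C p) || tg C (2 ^ p) lmT)

/-- The check of a set which meets every line. -/
def leaf (fl : Bool) (n C : ℕ) : Bool := full C lmT || (fl && Nat.beq n 0 && tang C)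

/-- The branches. -/
def br (f : ℕ → ℕ → Bool) (a : Fin 21) : List (Fin 5) → ℕ → ℕ → Bool
  | [], _, _ => true
  | i :: t, C, X => (Nat.testBit X (cl a i).1 || f (Nat.lor C (2 ^ (cl a i).1)) X) &&
      br f a t C (Nat.lor X (2 ^ (cl a i).1))

/-- The search. -/
def go (fl : Bool) : ℕ → ℕ → ℕ → Bool
  | 0, C, _ => match fnd C lmT with
    | none => leaf fl 0 C
    | some _ => true
  | n + 1, C, X => match fnd C lmT with
    | none => leaf fl (n + 1) C
    | some a => br (go fl n) a [0, 1, 2, 3, 4] C X

theorem lm_ok : ∀ x ∈ lmT, ∀ i : Fin 5, x.1.testBit (cl x.2 i).1 = true := by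
  decide +kernel

theorem lm_ok' : ∀ x ∈ lmT, ∀ p : Fin 21, x.1.testBit p.1 = true → ∃ i : Fin 5, cl x.2 i = p := by
  decide +kernel

theorem fnd_some {C : ℕ} {a : Fin 21} : ∀ {L : List (ℕ × Fin 21)}, fnd C L = some a →
    ∃ x ∈ L, x.2 = a ∧ Nat.land C x.1 = 0
  | [], h => by simp [fnd] at h
  | x :: t, h => by
      unfold fnd at h
      rcases hx : Nat.beq (Nat.land C x.1) 0 with _ | _
      · rw [hx, cond_false] at h
        obtain ⟨y, hy, h1⟩ := fnd_some h
        exact ⟨y, List.mem_cons_of_mem _ hy, h1⟩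
      · rw [hx, cond_true] at h
        exact ⟨x, by simp, Option.some.inj h, Nat.eq_of_beq_eq_true hx⟩

theorem full_true {C : ℕ} : ∀ {L : List (ℕ × Fin 21)}, full C L = true → ∃ x ∈ L, Nat.land C x.1 = x.1
  | [], h => by simp [full] at h
  | x :: t, h => by
      unfold full at h
      rcases hx : Nat.beq (Nat.land C x.1) x.1 with _ | _
      · rw [hx, cond_false] at h
        obtain ⟨y, hy, h1⟩ := full_true h
        exact ⟨y, List.mem_cons_of_mem _ hy, h1⟩
      · exact ⟨x, by simp, Nat.eq_of_beq_eq_true hx⟩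

theorem tg_true {C b : ℕ} : ∀ {L : List (ℕ × Fin 21)}, tg C b L = true → ∃ x ∈ L, Nat.land C x.1 = b
  | [], h => by simp [tg] at h
  | x :: t, h => by
      unfold tg at h
      rcases hx : Nat.beq (Nat.land C x.1) b with _ | _
      · rw [hx, cond_false] at h
        obtain ⟨y, hy, h1⟩ := tg_true h
        exact ⟨y, List.mem_cons_of_mem _ hy, h1⟩
      · exact ⟨x, by simp, Nat.eq_of_beq_eq_true hx⟩

/-- The conclusion. -/
def Cc (fl : Bool) (B : Finset (Fin 21)) : Prop :=
  (∃ a, ∀ i, cl a i ∈ B) ∨
    (fl = true ∧ ∀ p ∈ B, ∃ a, (∃ i, cl a i = p) ∧ ∀ i, cl a i ∈ B → cl a i = p)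

theorem land_eq (a b : ℕ) : Nat.land a b = a &&& b := rfl

theorem lor_eq (a b : ℕ) : Nat.lor a b = a ||| b := rfl

theorem leaf_sound {fl : Bool} {n C : ℕ} (h : leaf fl n C = true) {S B : Finset (Fin 21)}
    (hC : ∀ p : Fin 21, C.testBit p.1 = true ↔ p ∈ S) (hS : S ⊆ B) (hc : B.card ≤ S.card + n) : Cc fl B := by
  unfold leaf at h
  rw [Bool.or_eq_true] at h
  rcases h with h | h
  · obtain ⟨x, hx, h1⟩ := full_true h
    refine Or.inl ⟨x.2, fun i => hS ((hC _).1 ?_)⟩
    have h2 := lm_ok x hx i
    rw [← h1, land_eq, Nat.testBit_land, Bool.and_eq_true] at h2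
    exact h2.1
  · rw [Bool.and_eq_true, Bool.and_eq_true] at h
    obtain ⟨⟨h1, h2⟩, h3⟩ := h
    have hn : n = 0 := Nat.eq_of_beq_eq_true h2
    have hSB : S = B := Finset.eq_of_subset_of_card_le hS (by omega)
    refine Or.inr ⟨h1, fun p hp => ?_⟩
    unfold tang at h3
    rw [List.all_eq_true] at h3
    have h4 := h3 p.1 (List.mem_range.2 p.2)
    rw [← hSB] at hp
    rw [(hC p).2 hp, Bool.not_true, Bool.false_or] at h4
    obtain ⟨x, hx, h5⟩ := tg_true h4
    refine ⟨x.2, ?_, fun i hi => ?_⟩
    · refine lm_ok' x hx p ?_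
      have h6 : (C &&& x.1).testBit p.1 = true := by
        rw [← land_eq, h5, Nat.testBit_two_pow_self]
      rw [Nat.testBit_land, Bool.and_eq_true] at h6
      exact h6.2
    · rw [← hSB] at hi
      have h6 : (C &&& x.1).testBit (cl x.2 i).1 = true := by
        rw [Nat.testBit_land, (hC _).2 hi, lm_ok x hx i]
        rfl
      rw [← land_eq, h5, Nat.testBit_two_pow] at h6
      exact Fin.ext (of_decide_eq_true h6).symm

theorem br_sound {fl : Bool} {n : ℕ} (ih : ∀ C X, go fl n C X = true → ∀ S B : Finset (Fin 21),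
      (∀ p : Fin 21, C.testBit p.1 = true ↔ p ∈ S) → (∀ p : Fin 21, X.testBit p.1 = true → p ∉ B) → S ⊆ B →
      B.card ≤ S.card + n → (∀ a, ∃ i, cl a i ∈ B) → Cc fl B)
    {a : Fin 21} {C : ℕ} {S B : Finset (Fin 21)} (hC : ∀ p : Fin 21, C.testBit p.1 = true ↔ p ∈ S)
    (hS : S ⊆ B) (hc : B.card ≤ S.card + (n + 1)) (hb : ∀ a, ∃ i, cl a i ∈ B) (ha : ∀ i, cl a i ∉ S) :
    ∀ (L : List (Fin 5)) (X : ℕ), br (go fl n) a L C X = true → (∀ p : Fin 21, X.testBit p.1 = true → p ∉ B) →
      (∃ i ∈ L, cl a i ∈ B) → Cc fl B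
  | [], _, _, _, h => by obtain ⟨i, hi, _⟩ := h; simp at hi
  | i :: t, X, h, hX, hi => by
      unfold br at h
      rw [Bool.and_eq_true, Bool.or_eq_true] at h
      by_cases h1 : cl a i ∈ B
      · rcases h.1 with h2 | h2
        · exact absurd h1 (hX _ h2)
        · refine ih _ _ h2 (insert (cl a i) S) B (fun p => ?_) hX ?_ ?_ hb
          · rw [lor_eq, Nat.testBit_lor, Bool.or_eq_true, Nat.testBit_two_pow, hC p, Finset.mem_insert]
            constructor
            · rintro (h3 | h3)
              · exact Or.inr h3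
              · exact Or.inl (Fin.ext (of_decide_eq_true h3).symm)
            · rintro (h3 | h3)
              · exact Or.inr (decide_eq_true (by rw [h3]))
              · exact Or.inl h3
          · intro p hp
            rcases Finset.mem_insert.1 hp with h3 | h3
            · rw [h3]; exact h1
            · exact hS h3
          · rw [Finset.card_insert_of_notMem (ha i)]
            omega
      · refine br_sound ih hC hS hc hb ha t _ h.2 (fun p hp => ?_) ?_
        · rw [lor_eq, Nat.testBit_lor, Bool.or_eq_true, Nat.testBit_two_pow] at hp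
          rcases hp with h3 | h3
          · exact hX p h3
          · have h4 : cl a i = p := Fin.ext (of_decide_eq_true h3)
            rw [← h4]
            exact h1
        · obtain ⟨j, hj, h5⟩ := hi
          rcases List.mem_cons.1 hj with h6 | h6
          · rw [h6] at h5
            exact absurd h5 h1
          · exact ⟨j, h6, h5⟩

theorem go_sound (fl : Bool) : ∀ n C X, go fl n C X = true → ∀ S B : Finset (Fin 21),
      (∀ p : Fin 21, C.testBit p.1 = true ↔ p ∈ S) → (∀ p : Fin 21, X.testBit p.1 = true → p ∉ B) → S ⊆ B →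
      B.card ≤ S.card + n → (∀ a, ∃ i, cl a i ∈ B) → Cc fl B
  | 0, C, X, h, S, B, hC, hX, hS, hc, hb => by
      unfold go at h
      rcases hf : fnd C lmT with _ | a
      · rw [hf] at h
        exact leaf_sound h hC hS hc
      · obtain ⟨x, hx, h1, h2⟩ := fnd_some hf
        have hSB : S = B := Finset.eq_of_subset_of_card_le hS (by omega)
        obtain ⟨i, hi⟩ := hb x.2
        rw [← hSB] at hi
        have h6 : (C &&& x.1).testBit (cl x.2 i).1 = true := by
          rw [Nat.testBit_land, (hC _).2 hi, lm_ok x hx i]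
          rfl
        rw [← land_eq, h2, Nat.zero_testBit] at h6
        exact absurd h6 (by decide)
  | n + 1, C, X, h, S, B, hC, hX, hS, hc, hb => by
      unfold go at h
      rcases hf : fnd C lmT with _ | a
      · rw [hf] at h
        exact leaf_sound h hC hS hc
      · rw [hf] at h
        obtain ⟨x, hx, h1, h2⟩ := fnd_some hf
        refine br_sound (go_sound fl n) hC hS hc hb (fun i hi => ?_) _ _ h hX ?_
        · rw [← h1] at hi
          have h6 : (C &&& x.1).testBit (cl x.2 i).1 = true := by
            rw [Nat.testBit_land, (hC _).2 hi, lm_ok x hx i]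
            rfl
          rw [← land_eq, h2, Nat.zero_testBit] at h6
          exact absurd h6 (by decide)
        · obtain ⟨i, hi⟩ := hb a
          refine ⟨i, ?_, hi⟩
          clear * -
          revert i
          decide

theorem go6 : go false 6 0 0 = true := by decide +kernel

theorem go7 : go true 7 0 0 = true := by decide +kernel

/-- A set of at most 6 points which meets every line contains a line. -/
theorem block6 (B : Finset (Fin 21)) (hc : B.card ≤ 6) (hb : ∀ a, ∃ i, cl a i ∈ B) : ∃ a, ∀ i, cl a i ∈ B := by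
  rcases go_sound false 6 0 0 go6 ∅ B (by simp) (by simp) (by simp) (by simpa using hc) hb with h | h
  · exact h
  · exact absurd h.1 (by decide)

/-- A set of at most 7 points which meets every line contains a line or each of its points is on a tangent. -/
theorem block7 (B : Finset (Fin 21)) (hc : B.card ≤ 7) (hb : ∀ a, ∃ i, cl a i ∈ B) :
    (∃ a, ∀ i, cl a i ∈ B) ∨ ∀ p ∈ B, ∃ a, (∃ i, cl a i = p) ∧ ∀ i, cl a i ∈ B → cl a i = p := by
  rcases go_sound true 7 0 0 go7 ∅ B (by simp) (by simp) (by simp) (by simpa using hc) hb with h | h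
  · exact Or.inl h
  · exact Or.inr h.2

end Pool.Agent.Lib.MP_4dc748_co.CL
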