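import Pool.Agent.Lib.MP_4dc748_co.CL.Block
import Pool.Agent.Lib.MP_4dc748_co.CL.Pos

/-!
# The end game at class level

The sizes of the classes with at most 6 points: 2 on a line, 0 at a point off the line, 6 elsewhere, minus a point.
-/

set_option autoImplicit false

namespace Pool.Agent.Lib.MP_4dc748_co.CL

open Pool.Agent.Lib.MP_4dc748_co.RS Pool.Agent.Lib.MP_4dc748_co.LL

/-! ### Collineations -/

/-- f is a collineation of the plane of order 4, f' is its action on the lines. -/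
def Coll (f f' : Fin 21 → Fin 21) : Prop :=
  (∀ p q, f p = f q → p = q) ∧ (∀ a b, f' a = f' b → a = b) ∧ ∀ a i, ∃ j, f (cl a i) = cl (f' a) j

instance (f f' : Fin 21 → Fin 21) : Decidable (Coll f f') := by
  unfold Coll
  infer_instance

theorem Coll.sum_line {M : Type*} [AddCommMonoid M] {f f' : Fin 21 → Fin 21} (h : Coll f f') (F : Fin 21 → M)
    (a : Fin 21) : ∑ i : Fin 5, F (f (cl a i)) = ∑ i : Fin 5, F (cl (f' a) i) := by
  have hi : Function.Injective (fun i : Fin 5 => f (cl a i)) := fun i j hij => cl_inj a i j (h.1 _ _ hij)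
  have hj : Function.Injective (cl (f' a)) := fun i j hij => cl_inj _ i j hij
  have h1 : Finset.univ.image (fun i : Fin 5 => f (cl a i)) = Finset.univ.image (cl (f' a)) := by
    refine Finset.eq_of_subset_of_card_le ?_ ?_
    · intro p hp
      obtain ⟨i, _, rfl⟩ := Finset.mem_image.1 hp
      obtain ⟨j, hj⟩ := h.2.2 a i
      rw [hj]
      exact Finset.mem_image_of_mem _ (Finset.mem_univ _)
    · rw [Finset.card_image_of_injective _ hi, Finset.card_image_of_injective _ hj]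
  calc ∑ i : Fin 5, F (f (cl a i)) = ∑ p ∈ Finset.univ.image (fun i : Fin 5 => f (cl a i)), F p :=
        (Finset.sum_image (fun i _ j _ hij => hi hij)).symm
    _ = ∑ p ∈ Finset.univ.image (cl (f' a)), F p := by rw [h1]
    _ = _ := Finset.sum_image (fun i _ j _ hij => hj hij)

theorem Coll.bij {f f' : Fin 21 → Fin 21} (h : Coll f f') : Function.Bijective f :=
  (Finite.injective_iff_bijective).1 fun p q => h.1 p q

theorem Coll.bij' {f f' : Fin 21 → Fin 21} (h : Coll f f') : Function.Bijective f' :=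
  (Finite.injective_iff_bijective).1 fun p q => h.2.1 p q

theorem Coll.sum {M : Type*} [AddCommMonoid M] {f f' : Fin 21 → Fin 21} (h : Coll f f') (F : Fin 21 → M) :
    ∑ p, F (f p) = ∑ p, F p :=
  Function.Bijective.sum_comp h.bij F

theorem Coll.sum' {M : Type*} [AddCommMonoid M] {f f' : Fin 21 → Fin 21} (h : Coll f f') (F : Fin 21 → M) :
    ∑ p, F (f' p) = ∑ p, F p :=
  Function.Bijective.sum_comp h.bij' F

theorem Coll.on {f f' : Fin 21 → Fin 21} (h : Coll f f') (a p : Fin 21) :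
    vec (f' a) ⬝ᵥ vec (f p) = 0 ↔ vec a ⬝ᵥ vec p = 0 := by
  have h1 : ∀ a p, vec a ⬝ᵥ vec p = 0 ↔ ∃ i, cl a i = p := fun a p =>
    ⟨fun h => exists_cl h, fun ⟨i, hi⟩ => hi ▸ cl_on a i⟩
  rw [h1, h1]
  constructor
  · rintro ⟨i, hi⟩
    have h2 : Finset.univ.image (fun i : Fin 5 => f (cl a i)) = Finset.univ.image (cl (f' a)) := by
      refine Finset.eq_of_subset_of_card_le ?_ ?_
      · intro q hq
        obtain ⟨i, _, rfl⟩ := Finset.mem_image.1 hq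
        obtain ⟨j, hj⟩ := h.2.2 a i
        rw [hj]
        exact Finset.mem_image_of_mem _ (Finset.mem_univ _)
      · rw [Finset.card_image_of_injective _ (fun i j hij => cl_inj a i j (h.1 _ _ hij)),
          Finset.card_image_of_injective _ (fun i j hij => cl_inj _ i j hij)]
    have h3 : f p ∈ Finset.univ.image (fun i : Fin 5 => f (cl a i)) := by
      rw [h2, ← hi]
      exact Finset.mem_image_of_mem _ (Finset.mem_univ _)
    obtain ⟨j, _, hj⟩ := Finset.mem_image.1 h3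
    exact ⟨j, h.1 _ _ hj⟩
  · rintro ⟨i, rfl⟩
    obtain ⟨j, hj⟩ := h.2.2 a i
    exact ⟨j, hj.symm⟩

/-! ### The facts about the sizes -/

/-- The number of classes with k points. -/
def nk (u : Fin 21 → ℕ) (k : ℕ) : ℕ := (Finset.univ.filter fun p => u p = k).card

/-- The facts. -/
structure Facts (u : Fin 21 → ℕ) : Prop where
  W : ∀ a, ∑ i : Fin 5, u (cl a i) ≤ 28
  N : (nk u 0 = 1 ∧ nk u 2 = 5 ∧ nk u 5 = 1 ∧ nk u 6 = 14) ∨ (nk u 0 = 1 ∧ nk u 1 = 1 ∧ nk u 2 = 4 ∧ nk u 6 = 15)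
  h1 : P1.Hold u
  h2 : P2.Hold u
  h3 : P3.Hold u
  h4 : P4.Hold u

theorem PC.Hold.comp {P : PC} {u : Fin 21 → ℕ} (h : P.Hold u) {f f' : Fin 21 → Fin 21} (hf : Coll f f') :
    P.Hold (u ∘ f) := by
  unfold PC.Hold at *
  simp only [Function.comp_apply]
  rw [hf.sum fun p => P.al (u p)]
  have h1 : ∀ a, ∑ i : Fin 5, 8 ^ u (f (cl a i)) = ∑ i : Fin 5, 8 ^ u (cl (f' a) i) := fun a =>
    hf.sum_line (fun p => 8 ^ u p) a
  simp only [h1]
  rw [hf.sum' fun a => P.g (∑ i : Fin 5, 8 ^ u (cl a i))]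
  exact h

theorem nk_comp (u : Fin 21 → ℕ) {f f' : Fin 21 → Fin 21} (hf : Coll f f') (k : ℕ) : nk (u ∘ f) k = nk u k := by
  unfold nk
  refine Finset.card_bij (fun p _ => f p) (fun p hp => ?_) (fun p _ q _ h => hf.1 p q h) (fun q hq => ?_)
  · rw [Finset.mem_filter] at *
    exact ⟨Finset.mem_univ _, hp.2⟩
  · obtain ⟨p, hp⟩ := hf.bij.2 q
    rw [Finset.mem_filter] at hq
    refine ⟨p, ?_, hp⟩
    rw [Finset.mem_filter]
    refine ⟨Finset.mem_univ _, ?_⟩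
    rw [Function.comp_apply, hp]
    exact hq.2

theorem Facts.comp {u : Fin 21 → ℕ} (h : Facts u) {f f' : Fin 21 → Fin 21} (hf : Coll f f') : Facts (u ∘ f) where
  W a := by
    have := h.W (f' a)
    rw [← hf.sum_line u a] at this
    exact this
  N := by
    simp only [nk_comp u hf]
    exact h.N
  h1 := h.h1.comp hf
  h2 := h.h2.comp hf
  h3 := h.h3.comp hf
  h4 := h.h4.comp hf

/-- The structure: 0 at Z, 2 on the line l, 6 elsewhere, minus a point in the class P. -/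
def Res (u : Fin 21 → ℕ) : Prop :=
  ∃ Z l P : Fin 21, vec l ⬝ᵥ vec Z ≠ 0 ∧ P ≠ Z ∧ u Z = 0 ∧
    ∀ p, p ≠ Z → u p = (if vec l ⬝ᵥ vec p = 0 then 2 else 6) - (if p = P then 1 else 0)

theorem Res.of_comp {u : Fin 21 → ℕ} {f f' : Fin 21 → Fin 21} (hf : Coll f f') (h : Res (u ∘ f)) : Res u := by
  obtain ⟨Z, l, P, h1, h2, h3, h4⟩ := h
  refine ⟨f Z, f' l, f P, fun h5 => h1 ((hf.on l Z).1 h5), fun h5 => h2 (hf.1 _ _ h5), h3, fun p hp => ?_⟩
  obtain ⟨q, rfl⟩ := hf.bij.2 p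
  have h5 := h4 q fun h => hp (by rw [h])
  rw [Function.comp_apply] at h5
  rw [h5]
  have e1 : (vec (f' l) ⬝ᵥ vec (f q) = 0) = (vec l ⬝ᵥ vec q = 0) := propext (hf.on l q)
  have e2 : (f q = f P) = (q = P) := propext ⟨fun h => hf.1 _ _ h, fun h => by rw [h]⟩
  simp only [e1, e2]

/-! ### Tables of collineations -/

/-- Collineations which move the line 5 to the line a. -/
def tA : List (List (Fin 21)) := [
   [13, 17, 9, 1, 5, 18, 12, 2, 7, 0, 15, 14, 16, 19, 3, 8, 10, 20, 6, 11, 4],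
   [5, 0, 7, 6, 8, 13, 9, 1, 17, 14, 12, 4, 19, 15, 10, 2, 20, 16, 11, 3, 18],
   [15, 2, 10, 5, 20, 11, 1, 19, 7, 14, 0, 16, 13, 8, 4, 9, 18, 17, 3, 6, 12],
   [4, 5, 19, 12, 14, 3, 2, 1, 0, 16, 10, 17, 7, 11, 20, 13, 6, 18, 15, 9, 8],
   [5, 18, 16, 3, 11, 12, 19, 4, 14, 2, 20, 15, 10, 7, 0, 8, 6, 13, 17, 9, 1],
   [3, 1, 4, 0, 2, 15, 6, 12, 17, 11, 18, 16, 5, 19, 10, 8, 13, 7, 14, 20, 9],
   [18, 10, 14, 1, 6, 3, 16, 5, 11, 13, 7, 2, 12, 19, 17, 20, 0, 8, 4, 15, 9],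
   [12, 8, 16, 1, 20, 6, 3, 17, 15, 5, 19, 14, 4, 7, 13, 2, 18, 0, 10, 11, 9],
   [7, 1, 15, 11, 19, 20, 3, 9, 14, 12, 2, 13, 18, 8, 0, 5, 6, 16, 4, 17, 10],
   [0, 12, 10, 9, 11, 2, 4, 3, 1, 7, 5, 6, 8, 13, 14, 15, 16, 18, 19, 17, 20],
   [16, 2, 6, 19, 9, 8, 12, 20, 1, 17, 7, 10, 4, 11, 18, 5, 3, 14, 13, 15, 0],
   [18, 15, 8, 4, 9, 6, 1, 14, 10, 12, 7, 13, 2, 17, 19, 0, 20, 3, 11, 16, 5],
   [9, 7, 14, 3, 20, 2, 19, 6, 16, 12, 11, 0, 10, 18, 15, 8, 4, 13, 1, 5, 17],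
   [20, 0, 18, 19, 17, 16, 1, 12, 8, 14, 3, 9, 7, 13, 4, 11, 6, 15, 2, 10, 5],
   [6, 12, 15, 17, 3, 4, 11, 20, 13, 19, 9, 16, 2, 5, 0, 8, 7, 14, 10, 1, 18],
   [17, 2, 8, 11, 14, 20, 19, 0, 18, 10, 16, 4, 7, 5, 9, 1, 13, 15, 6, 3, 12],
   [7, 16, 4, 17, 10, 20, 9, 14, 3, 8, 6, 0, 5, 12, 2, 13, 18, 1, 19, 15, 11],
   [13, 14, 16, 0, 15, 20, 4, 6, 11, 7, 12, 18, 2, 9, 5, 1, 17, 3, 19, 10, 8],
   [13, 4, 20, 11, 6, 8, 10, 19, 3, 15, 16, 14, 0, 18, 7, 12, 2, 9, 17, 5, 1],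
   [3, 19, 8, 13, 10, 18, 16, 11, 5, 20, 9, 7, 14, 17, 6, 15, 12, 0, 2, 1, 4],
   [2, 7, 12, 13, 18, 3, 4, 0, 1, 14, 17, 8, 11, 9, 16, 6, 19, 20, 10, 5, 15]]

/-- Their action on the lines. -/
def tA' : List (List (Fin 21)) := [
   [13, 20, 11, 4, 6, 0, 14, 16, 15, 17, 9, 1, 5, 18, 7, 12, 2, 19, 3, 8, 10],
   [17, 0, 20, 19, 18, 1, 9, 13, 5, 3, 12, 15, 6, 4, 10, 16, 7, 2, 11, 14, 8],
   [15, 8, 9, 18, 4, 2, 5, 20, 10, 17, 6, 12, 3, 14, 0, 16, 13, 11, 7, 1, 19],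
   [4, 5, 19, 12, 14, 3, 2, 1, 0, 16, 10, 17, 7, 11, 20, 13, 6, 18, 15, 9, 8],
   [20, 3, 7, 9, 14, 4, 13, 6, 11, 2, 10, 15, 5, 0, 19, 17, 18, 1, 8, 12, 16],
   [8, 14, 11, 2, 17, 5, 6, 0, 7, 4, 18, 15, 9, 12, 1, 16, 20, 19, 10, 13, 3],
   [19, 4, 12, 14, 5, 6, 16, 9, 2, 20, 17, 18, 0, 11, 7, 15, 1, 13, 10, 8, 3],
   [1, 14, 10, 18, 6, 7, 19, 11, 15, 3, 4, 2, 0, 9, 5, 17, 13, 20, 12, 8, 16],
   [7, 12, 2, 13, 18, 8, 5, 6, 0, 20, 14, 3, 9, 16, 4, 17, 10, 1, 19, 15, 11],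
   [20, 5, 2, 15, 10, 9, 3, 7, 14, 1, 16, 8, 12, 13, 11, 6, 4, 17, 18, 0, 19],
   [15, 7, 1, 11, 19, 10, 20, 5, 2, 16, 14, 0, 13, 17, 3, 6, 12, 4, 9, 8, 18],
   [14, 6, 1, 10, 18, 11, 8, 2, 17, 20, 7, 9, 3, 4, 5, 19, 12, 13, 0, 16, 15],
   [20, 10, 15, 2, 5, 12, 8, 16, 1, 9, 3, 7, 14, 0, 19, 17, 18, 11, 13, 4, 6],
   [17, 7, 4, 16, 10, 13, 5, 1, 9, 12, 6, 15, 3, 2, 8, 11, 14, 18, 0, 19, 20],
   [3, 18, 11, 5, 16, 14, 9, 20, 7, 10, 8, 19, 13, 6, 15, 17, 12, 1, 4, 0, 2],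
   [2, 13, 7, 12, 18, 15, 10, 20, 5, 16, 19, 6, 9, 14, 8, 11, 17, 0, 3, 4, 1],
   [7, 12, 18, 2, 13, 16, 10, 4, 17, 1, 11, 19, 15, 8, 0, 5, 6, 20, 9, 14, 3],
   [12, 18, 7, 2, 13, 17, 3, 15, 6, 20, 16, 8, 1, 19, 5, 4, 14, 0, 11, 9, 10],
   [11, 19, 7, 1, 15, 18, 16, 5, 3, 17, 2, 14, 8, 0, 9, 12, 10, 20, 6, 4, 13],
   [13, 4, 11, 6, 20, 19, 10, 3, 8, 12, 7, 2, 18, 5, 17, 1, 9, 14, 16, 0, 15],
   [12, 5, 14, 4, 19, 20, 16, 8, 1, 15, 3, 6, 17, 2, 18, 7, 13, 10, 11, 0, 9]]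

/-- Translations which move the point 5 to the point z, for 5 ≤ z. -/
def tB : List (List (Fin 21)) := [
   [0, 1, 2, 3, 4, 5, 6, 7, 8, 9, 10, 11, 12, 13, 14, 15, 16, 17, 18, 19, 20],
   [0, 1, 2, 3, 4, 5, 6, 7, 8, 9, 10, 11, 12, 13, 14, 15, 16, 17, 18, 19, 20],
   [0, 1, 2, 3, 4, 5, 6, 7, 8, 9, 10, 11, 12, 13, 14, 15, 16, 17, 18, 19, 20],
   [0, 1, 2, 3, 4, 5, 6, 7, 8, 9, 10, 11, 12, 13, 14, 15, 16, 17, 18, 19, 20],
   [0, 1, 2, 3, 4, 5, 6, 7, 8, 9, 10, 11, 12, 13, 14, 15, 16, 17, 18, 19, 20],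
   [0, 1, 2, 3, 4, 5, 6, 7, 8, 9, 10, 11, 12, 13, 14, 15, 16, 17, 18, 19, 20],
   [0, 1, 2, 3, 4, 6, 5, 8, 7, 10, 9, 12, 11, 14, 13, 16, 15, 18, 17, 20, 19],
   [0, 1, 2, 3, 4, 7, 8, 5, 6, 11, 12, 9, 10, 15, 16, 13, 14, 19, 20, 17, 18],
   [0, 1, 2, 3, 4, 8, 7, 6, 5, 12, 11, 10, 9, 16, 15, 14, 13, 20, 19, 18, 17],
   [0, 1, 2, 3, 4, 9, 10, 11, 12, 5, 6, 7, 8, 17, 18, 19, 20, 13, 14, 15, 16],
   [0, 1, 2, 3, 4, 10, 9, 12, 11, 6, 5, 8, 7, 18, 17, 20, 19, 14, 13, 16, 15],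
   [0, 1, 2, 3, 4, 11, 12, 9, 10, 7, 8, 5, 6, 19, 20, 17, 18, 15, 16, 13, 14],
   [0, 1, 2, 3, 4, 12, 11, 10, 9, 8, 7, 6, 5, 20, 19, 18, 17, 16, 15, 14, 13],
   [0, 1, 2, 3, 4, 13, 14, 15, 16, 17, 18, 19, 20, 5, 6, 7, 8, 9, 10, 11, 12],
   [0, 1, 2, 3, 4, 14, 13, 16, 15, 18, 17, 20, 19, 6, 5, 8, 7, 10, 9, 12, 11],
   [0, 1, 2, 3, 4, 15, 16, 13, 14, 19, 20, 17, 18, 7, 8, 5, 6, 11, 12, 9, 10],
   [0, 1, 2, 3, 4, 16, 15, 14, 13, 20, 19, 18, 17, 8, 7, 6, 5, 12, 11, 10, 9],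
   [0, 1, 2, 3, 4, 17, 18, 19, 20, 13, 14, 15, 16, 9, 10, 11, 12, 5, 6, 7, 8],
   [0, 1, 2, 3, 4, 18, 17, 20, 19, 14, 13, 16, 15, 10, 9, 12, 11, 6, 5, 8, 7],
   [0, 1, 2, 3, 4, 19, 20, 17, 18, 15, 16, 13, 14, 11, 12, 9, 10, 7, 8, 5, 6],
   [0, 1, 2, 3, 4, 20, 19, 18, 17, 16, 15, 14, 13, 12, 11, 10, 9, 8, 7, 6, 5]]

/-- Their action on the lines. -/
def tB' : List (List (Fin 21)) := [
   [0, 1, 2, 3, 4, 5, 6, 7, 8, 9, 10, 11, 12, 13, 14, 15, 16, 17, 18, 19, 20],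
   [0, 1, 2, 3, 4, 5, 6, 7, 8, 9, 10, 11, 12, 13, 14, 15, 16, 17, 18, 19, 20],
   [0, 1, 2, 3, 4, 5, 6, 7, 8, 9, 10, 11, 12, 13, 14, 15, 16, 17, 18, 19, 20],
   [0, 1, 2, 3, 4, 5, 6, 7, 8, 9, 10, 11, 12, 13, 14, 15, 16, 17, 18, 19, 20],
   [0, 1, 2, 3, 4, 5, 6, 7, 8, 9, 10, 11, 12, 13, 14, 15, 16, 17, 18, 19, 20],
   [0, 1, 2, 3, 4, 5, 6, 7, 8, 9, 10, 11, 12, 13, 14, 15, 16, 17, 18, 19, 20],
   [6, 1, 10, 18, 14, 5, 0, 8, 7, 9, 2, 16, 19, 13, 4, 20, 11, 17, 3, 12, 15],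
   [8, 1, 20, 16, 12, 5, 7, 6, 0, 9, 15, 18, 4, 13, 19, 10, 3, 17, 11, 14, 2],
   [7, 1, 15, 11, 19, 5, 8, 0, 6, 9, 20, 3, 14, 13, 12, 2, 18, 17, 16, 4, 10],
   [0, 9, 10, 11, 12, 5, 6, 7, 8, 1, 2, 3, 4, 17, 19, 20, 18, 13, 16, 14, 15],
   [6, 9, 2, 16, 19, 5, 0, 8, 7, 1, 10, 18, 14, 17, 12, 15, 3, 13, 11, 4, 20],
   [8, 9, 15, 18, 4, 5, 7, 6, 0, 1, 20, 16, 12, 17, 14, 2, 11, 13, 3, 19, 10],
   [7, 9, 20, 3, 14, 5, 8, 0, 6, 1, 15, 11, 19, 17, 4, 10, 16, 13, 18, 12, 2],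
   [0, 17, 20, 18, 19, 5, 6, 7, 8, 13, 15, 16, 14, 9, 12, 10, 11, 1, 3, 4, 2],
   [6, 17, 15, 3, 12, 5, 0, 8, 7, 13, 20, 11, 4, 9, 19, 2, 16, 1, 18, 14, 10],
   [8, 17, 2, 11, 14, 5, 7, 6, 0, 13, 10, 3, 19, 9, 4, 15, 18, 1, 16, 12, 20],
   [7, 17, 10, 16, 4, 5, 8, 0, 6, 13, 2, 18, 12, 9, 14, 20, 3, 1, 11, 19, 15],
   [0, 13, 15, 16, 14, 5, 6, 7, 8, 17, 20, 18, 19, 1, 4, 2, 3, 9, 11, 12, 10],
   [6, 13, 20, 11, 4, 5, 0, 8, 7, 17, 15, 3, 12, 1, 14, 10, 18, 9, 16, 19, 2],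
   [8, 13, 10, 3, 19, 5, 7, 6, 0, 17, 2, 11, 14, 1, 12, 20, 16, 9, 18, 4, 15],
   [7, 13, 2, 18, 12, 5, 8, 0, 6, 17, 10, 16, 4, 1, 19, 15, 11, 9, 3, 14, 20]]

/-- The entries. -/
def ent (t : List (List (Fin 21))) (a p : Fin 21) : Fin 21 := (t.getD a.1 []).getD p.1 0

theorem tA_coll : ∀ a : Fin 21, Coll (ent tA a) (ent tA' a) ∧ ent tA' a 5 = a := by decide +kernel

theorem tB_coll : ∀ z : Fin 21, Coll (ent tB z) (ent tB' z) ∧ ent tB' z 5 = 5 ∧ (5 ≤ z → ent tB z 5 = z) := by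
  decide +kernel

/-- Points on the line 5. -/
theorem cl5 : ∀ p : Fin 21, (∃ i, cl 5 i = p) ↔ p < 5 := by decide +kernel

theorem on5 : ∀ p : Fin 21, vec 5 ⬝ᵥ vec p = 0 ↔ p < 5 := by decide +kernel

/-! ### Finite checks -/

/-- 0 at p0, 1 at p1, 2 at the other points of 0, .., 5. -/
def uA (p0 p1 p : Fin 21) : ℕ := if p = p0 then 0 else if p = p1 then 1 else if p ≤ 5 then 2 else 6

/-- 0 at p0, 5 at 5, 2 at the other points of 0, .., 4 and at z, 6 elsewhere. -/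
def uB (p0 z p : Fin 21) : ℕ := if p = p0 then 0 else if p = 5 then 5 else if p < 5 ∨ p = z then 2 else 6

theorem chkA : ∀ p0 p1 : Fin 21, p0 < 5 → p1 ≤ 5 → p0 ≠ p1 → ¬ (P1.Hold (uA p0 p1) ∧ P2.Hold (uA p0 p1)) := by
  decide +kernel

theorem chkB : ∀ p0 z : Fin 21, p0 < 5 → 5 < z → ¬ (P3.Hold (uB p0 z) ∧ P4.Hold (uB p0 z)) := by
  decide +kernel

/-- Tangents of the union of the line 5 and two points. -/
theorem tan5 : ∀ p y z : Fin 21, p < 5 → 5 ≤ y → 5 ≤ z → ∃ a, (∃ i, cl a i = p) ∧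
    ∀ i, (cl a i < 5 ∨ cl a i = y ∨ cl a i = z) → cl a i = p := by
  decide +kernel

/-! ### The end game -/

theorem vals4 {u : Fin 21 → ℕ} {k1 k2 k3 k4 : ℕ} (h12 : k1 ≠ k2) (h13 : k1 ≠ k3) (h14 : k1 ≠ k4) (h23 : k2 ≠ k3)
    (h24 : k2 ≠ k4) (h34 : k3 ≠ k4) (h : nk u k1 + nk u k2 + nk u k3 + nk u k4 = 21) (p : Fin 21) :
    u p = k1 ∨ u p = k2 ∨ u p = k3 ∨ u p = k4 := by
  have h1 : ∑ p : Fin 21, ((if u p = k1 then 1 else 0) + (if u p = k2 then 1 else 0) +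
      (if u p = k3 then 1 else 0) + (if u p = k4 then 1 else 0)) = ∑ _p : Fin 21, 1 := by
    rw [Finset.sum_add_distrib, Finset.sum_add_distrib, Finset.sum_add_distrib]
    simp only [nk, Finset.card_filter] at h
    rw [h]
    simp
  have h2 := (Finset.sum_eq_sum_iff_of_le (fun p _ => by
    split_ifs <;> omega)).1 h1 p (Finset.mem_univ p)
  by_contra h3
  push Not at h3
  rw [if_neg h3.1, if_neg h3.2.1, if_neg h3.2.2.1, if_neg h3.2.2.2] at h2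
  omega

theorem card_ne (u : Fin 21 → ℕ) (k : ℕ) : (Finset.univ.filter fun p => u p ≠ k).card + nk u k = 21 := by
  have h := Finset.card_filter_add_card_filter_not (s := (Finset.univ : Finset (Fin 21))) (fun p => u p = k)
  rw [Finset.card_univ, Fintype.card_fin] at h
  rw [add_comm]
  exact h

theorem nk_one {u : Fin 21 → ℕ} {k : ℕ} (h : nk u k = 1) : ∃ p, u p = k ∧ ∀ q, u q = k → q = p := by
  obtain ⟨p, hp⟩ := Finset.card_eq_one.1 h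
  refine ⟨p, ?_, fun q hq => ?_⟩
  · have : p ∈ Finset.univ.filter fun p => u p = k := by rw [hp]; simp
    exact (Finset.mem_filter.1 this).2
  · have : q ∈ Finset.univ.filter fun p => u p = k := Finset.mem_filter.2 ⟨Finset.mem_univ _, hq⟩
    rw [hp] at this
    exact Finset.mem_singleton.1 this

theorem Facts.meet {u : Fin 21 → ℕ} (h : Facts u) (a : Fin 21) :
    ∃ i, cl a i ∈ Finset.univ.filter fun p => u p ≠ 6 := by
  by_contra h1
  push Not at h1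
  have h2 : ∀ i, u (cl a i) = 6 := fun i => by
    have := h1 i
    rw [Finset.mem_filter] at this
    by_contra h3
    exact this ⟨Finset.mem_univ _, h3⟩
  have h3 := h.W a
  simp only [h2] at h3
  simp at h3

theorem Facts.tangent {u : Fin 21 → ℕ} (h : Facts u) {a p : Fin 21} (hp : u p = 5) (h1 : ∃ i, cl a i = p)
    (h2 : ∀ i, u (cl a i) ≠ 6 → cl a i = p) : False := by
  obtain ⟨i, hi⟩ := h1
  have h3 := h.W a
  have h4 : ∀ j ∈ (Finset.univ : Finset (Fin 5)).erase i, u (cl a j) = 6 := by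
    intro j hj
    by_contra h5
    have h6 := h2 j h5
    rw [← hi] at h6
    exact (Finset.mem_erase.1 hj).1 (cl_inj a j i h6)
  rw [← Finset.add_sum_erase _ _ (Finset.mem_univ i), Finset.sum_congr rfl h4, hi, hp] at h3
  simp at h3

/-- After a collineation the classes with a number different from 6 contain the line 5. -/
theorem Facts.stepA {u : Fin 21 → ℕ} {a : Fin 21} (ha : ∀ i, u (cl a i) ≠ 6) :
    ∀ p : Fin 21, p < 5 → (u ∘ ent tA a) p ≠ 6 := by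
  intro p hp
  obtain ⟨i, rfl⟩ := (cl5 p).2 hp
  obtain ⟨j, hj⟩ := (tA_coll a).1.2.2 5 i
  rw [Function.comp_apply, hj, (tA_coll a).2]
  exact ha j

theorem Facts.stepB {u : Fin 21 → ℕ} {z : Fin 21} (ha : ∀ p : Fin 21, p < 5 → u p ≠ 6) :
    ∀ p : Fin 21, p < 5 → (u ∘ ent tB z) p ≠ 6 := by
  intro p hp
  obtain ⟨i, rfl⟩ := (cl5 p).2 hp
  obtain ⟨j, hj⟩ := (tB_coll z).1.2.2 5 i
  rw [Function.comp_apply, hj, (tB_coll z).2.1]
  exact ha _ ((cl5 _).1 ⟨j, rfl⟩)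

theorem card_lt5 : (Finset.univ.filter fun p : Fin 21 => p < 5).card = 5 := by decide

theorem card_ge {u : Fin 21 → ℕ} (h : ∀ p : Fin 21, p < 5 → u p ≠ 6) :
    (Finset.univ.filter fun p => u p ≠ 6 ∧ 5 ≤ p).card + 5 = (Finset.univ.filter fun p => u p ≠ 6).card := by
  have h1 : (Finset.univ.filter fun p => u p ≠ 6) =
      (Finset.univ.filter fun p => u p ≠ 6 ∧ 5 ≤ p) ∪ (Finset.univ.filter fun p : Fin 21 => p < 5) := by
    ext p
    simp only [Finset.mem_filter, Finset.mem_univ, true_and, Finset.mem_union]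
    constructor
    · intro h2
      by_cases h3 : p < 5
      · exact Or.inr h3
      · exact Or.inl ⟨h2, not_lt.1 h3⟩
    · rintro (h2 | h2)
      · exact h2.1
      · exact h p h2
  rw [h1, Finset.card_union_of_disjoint, card_lt5]
  rw [Finset.disjoint_left]
  intro p hp hq
  rw [Finset.mem_filter] at hp hq
  exact absurd hq.2 (not_lt.2 hp.2.2)

theorem vec55 : vec 5 ⬝ᵥ vec 5 ≠ 0 := fun h => absurd ((on5 5).1 h) (by decide)

theorem caseA {u : Fin 21 → ℕ} (h : Facts u)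
    (hN : nk u 0 = 1 ∧ nk u 1 = 1 ∧ nk u 2 = 4 ∧ nk u 6 = 15) : Res u := by
  obtain ⟨a, ha⟩ := block6 _ (by have := card_ne u 6; omega) h.meet
  have ha' : ∀ i, u (cl a i) ≠ 6 := fun i => (Finset.mem_filter.1 (ha i)).2
  refine Res.of_comp (tA_coll a).1 ?_
  have hv := h.comp (tA_coll a).1
  have hv5 := Facts.stepA (u := u) ha'
  have hNv : nk (u ∘ ent tA a) 0 = 1 ∧ nk (u ∘ ent tA a) 1 = 1 ∧ nk (u ∘ ent tA a) 2 = 4 ∧
      nk (u ∘ ent tA a) 6 = 15 := by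
    simp only [nk_comp u (tA_coll a).1]
    exact hN
  clear hN h ha ha'
  generalize u ∘ ent tA a = v at hv hv5 hNv ⊢
  have h1 := card_ge hv5
  have h2 := card_ne v 6
  obtain ⟨z, hz⟩ := Finset.card_eq_one.1 (show (Finset.univ.filter fun p => v p ≠ 6 ∧ 5 ≤ p).card = 1 by omega)
  have hz1 : v z ≠ 6 ∧ 5 ≤ z := by
    have : z ∈ Finset.univ.filter fun p => v p ≠ 6 ∧ 5 ≤ p := by rw [hz]; simp
    exact (Finset.mem_filter.1 this).2
  refine Res.of_comp (tB_coll z).1 ?_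
  have hw := hv.comp (tB_coll z).1
  have hw5 := Facts.stepB (u := v) (z := z) hv5
  have hNw : nk (v ∘ ent tB z) 0 = 1 ∧ nk (v ∘ ent tB z) 1 = 1 ∧ nk (v ∘ ent tB z) 2 = 4 ∧
      nk (v ∘ ent tB z) 6 = 15 := by
    simp only [nk_comp v (tB_coll z).1]
    exact hNv
  have hw55 : (v ∘ ent tB z) 5 ≠ 6 := by
    rw [Function.comp_apply, (tB_coll z).2.2 hz1.2]
    exact hz1.1
  clear hNv hv hv5 h1 h2 hz
  generalize v ∘ ent tB z = w at hw hw5 hNw hw55 ⊢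
  have h1 := card_ge hw5
  have h2 := card_ne w 6
  obtain ⟨y, hy⟩ := Finset.card_eq_one.1 (show (Finset.univ.filter fun p => w p ≠ 6 ∧ 5 ≤ p).card = 1 by omega)
  have hy5 : (5 : Fin 21) = y := by
    have : (5 : Fin 21) ∈ Finset.univ.filter fun p => w p ≠ 6 ∧ 5 ≤ p :=
      Finset.mem_filter.2 ⟨Finset.mem_univ _, hw55, le_refl _⟩
    rw [hy] at this
    exact Finset.mem_singleton.1 this
  subst hy5
  have h6 : ∀ p : Fin 21, ¬ p ≤ 5 → w p = 6 := by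
    intro p hp
    by_contra h3
    have h4 : p ∈ Finset.univ.filter fun p => w p ≠ 6 ∧ 5 ≤ p :=
      Finset.mem_filter.2 ⟨Finset.mem_univ _, h3, (lt_of_not_ge hp).le⟩
    rw [hy, Finset.mem_singleton] at h4
    exact hp (le_of_eq h4)
  have h6' : ∀ p : Fin 21, p ≤ 5 → w p ≠ 6 := by
    intro p hp
    rcases lt_or_eq_of_le hp with h3 | h3
    · exact hw5 p h3
    · rw [h3]; exact hw55
  obtain ⟨p0, hp0, hu0⟩ := nk_one hNw.1
  obtain ⟨p1, hp1, hu1⟩ := nk_one hNw.2.1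
  have hv4 := vals4 (u := w) (k1 := 0) (k2 := 1) (k3 := 2) (k4 := 6) (by decide) (by decide) (by decide) (by decide)
    (by decide) (by decide) (by omega)
  have hle0 : p0 ≤ 5 := by
    by_contra h3
    rw [h6 p0 h3] at hp0
    omega
  have hle1 : p1 ≤ 5 := by
    by_contra h3
    rw [h6 p1 h3] at hp1
    omega
  have hne : p0 ≠ p1 := by
    intro h3
    rw [h3, hp1] at hp0
    omega
  have hwe : w = uA p0 p1 := by
    funext p
    unfold uA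
    by_cases e0 : p = p0
    · rw [if_pos e0, e0, hp0]
    · rw [if_neg e0]
      by_cases e1 : p = p1
      · rw [if_pos e1, e1, hp1]
      · rw [if_neg e1]
        by_cases e2 : p ≤ 5
        · rw [if_pos e2]
          rcases hv4 p with h3 | h3 | h3 | h3
          · exact absurd (hu0 p h3) e0
          · exact absurd (hu1 p h3) e1
          · exact h3
          · exact absurd h3 (h6' p e2)
        · rw [if_neg e2]
          exact h6 p e2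
  rcases lt_or_eq_of_le hle0 with h3 | h3
  · rw [hwe] at hw
    exact absurd ⟨hw.h1, hw.h2⟩ (chkA p0 p1 h3 hle1 hne)
  · subst h3
    refine ⟨5, 5, p1, vec55, hne.symm, hp0, fun p hp => ?_⟩
    rw [hwe]
    unfold uA
    rw [if_neg hp]
    by_cases e1 : p = p1
    · rw [if_pos e1, if_pos e1, if_pos]
      rw [on5, e1]
      exact lt_of_le_of_ne hle1 hne.symm
    · rw [if_neg e1, if_neg e1]
      by_cases e2 : p ≤ 5
      · rw [if_pos e2, if_pos ((on5 p).2 (lt_of_le_of_ne e2 hp))]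
      · rw [if_neg e2, if_neg fun h4 => e2 ((on5 p).1 h4).le]

theorem caseB {u : Fin 21 → ℕ} (h : Facts u)
    (hN : nk u 0 = 1 ∧ nk u 2 = 5 ∧ nk u 5 = 1 ∧ nk u 6 = 14) : Res u := by
  obtain ⟨q5, hq5, -⟩ := nk_one hN.2.2.1
  obtain ⟨a, ha⟩ : ∃ a, ∀ i, u (cl a i) ≠ 6 := by
    rcases block7 _ (by have := card_ne u 6; omega) h.meet with h1 | h1
    · obtain ⟨a, ha⟩ := h1
      exact ⟨a, fun i => (Finset.mem_filter.1 (ha i)).2⟩
    · obtain ⟨a, ha, hb⟩ := h1 q5 (Finset.mem_filter.2 ⟨Finset.mem_univ _, by rw [hq5]; decide⟩)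
      exact (h.tangent hq5 ha fun i hi => hb i (Finset.mem_filter.2 ⟨Finset.mem_univ _, hi⟩)).elim
  refine Res.of_comp (tA_coll a).1 ?_
  have hv := h.comp (tA_coll a).1
  have hv5 := Facts.stepA (u := u) ha
  have hNv : nk (u ∘ ent tA a) 0 = 1 ∧ nk (u ∘ ent tA a) 2 = 5 ∧ nk (u ∘ ent tA a) 5 = 1 ∧
      nk (u ∘ ent tA a) 6 = 14 := by
    simp only [nk_comp u (tA_coll a).1]
    exact hN
  clear hN h ha hq5
  generalize u ∘ ent tA a = v at hv hv5 hNv ⊢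
  have h1 := card_ge hv5
  have h2 := card_ne v 6
  obtain ⟨p5, hp5, -⟩ := nk_one hNv.2.2.1
  have hle5 : 5 ≤ p5 := by
    by_contra h3
    rw [not_le] at h3
    obtain ⟨y, z, hyz, hB⟩ := Finset.card_eq_two.1
      (show (Finset.univ.filter fun p => v p ≠ 6 ∧ 5 ≤ p).card = 2 by omega)
    have hy : y ∈ Finset.univ.filter fun p => v p ≠ 6 ∧ 5 ≤ p := by rw [hB]; simp
    have hz : z ∈ Finset.univ.filter fun p => v p ≠ 6 ∧ 5 ≤ p := by rw [hB]; simp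
    obtain ⟨b, hb1, hb2⟩ := tan5 p5 y z h3 (Finset.mem_filter.1 hy).2.2 (Finset.mem_filter.1 hz).2.2
    refine hv.tangent hp5 hb1 fun i hi => hb2 i ?_
    by_cases h4 : cl b i < 5
    · exact Or.inl h4
    · right
      have h5 : cl b i ∈ Finset.univ.filter fun p => v p ≠ 6 ∧ 5 ≤ p :=
        Finset.mem_filter.2 ⟨Finset.mem_univ _, hi, not_lt.1 h4⟩
      rw [hB] at h5
      simpa using h5
  refine Res.of_comp (tB_coll p5).1 ?_
  have hw := hv.comp (tB_coll p5).1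
  have hw5 := Facts.stepB (u := v) (z := p5) hv5
  have hNw : nk (v ∘ ent tB p5) 0 = 1 ∧ nk (v ∘ ent tB p5) 2 = 5 ∧ nk (v ∘ ent tB p5) 5 = 1 ∧
      nk (v ∘ ent tB p5) 6 = 14 := by
    simp only [nk_comp v (tB_coll p5).1]
    exact hNv
  have hw55 : (v ∘ ent tB p5) 5 = 5 := by
    rw [Function.comp_apply, (tB_coll p5).2.2 hle5]
    exact hp5
  clear hNv hv hv5 h1 h2 hp5
  generalize v ∘ ent tB p5 = w at hw hw5 hNw hw55 ⊢
  have h1 := card_ge hw5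
  have h2 := card_ne w 6
  obtain ⟨z, hz⟩ : ∃ z : Fin 21, 5 < z ∧ w z ≠ 6 ∧ ∀ p, 5 < p → p ≠ z → w p = 6 := by
    obtain ⟨x, y, hxy, hB⟩ := Finset.card_eq_two.1
      (show (Finset.univ.filter fun p => w p ≠ 6 ∧ 5 ≤ p).card = 2 by omega)
    have h55 : (5 : Fin 21) ∈ Finset.univ.filter fun p => w p ≠ 6 ∧ 5 ≤ p :=
      Finset.mem_filter.2 ⟨Finset.mem_univ _, by rw [hw55]; decide, le_refl _⟩
    have hx : x ∈ Finset.univ.filter fun p => w p ≠ 6 ∧ 5 ≤ p := by rw [hB]; simp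
    have hy : y ∈ Finset.univ.filter fun p => w p ≠ 6 ∧ 5 ≤ p := by rw [hB]; simp
    have hx' := (Finset.mem_filter.1 hx).2
    have hy' := (Finset.mem_filter.1 hy).2
    rw [hB, Finset.mem_insert, Finset.mem_singleton] at h55
    rcases h55 with h3 | h3
    · refine ⟨y, lt_of_le_of_ne hy'.2 (by rw [h3]; exact hxy), hy'.1, fun p hp hpy => ?_⟩
      by_contra h4
      have h5 : p ∈ Finset.univ.filter fun p => w p ≠ 6 ∧ 5 ≤ p :=
        Finset.mem_filter.2 ⟨Finset.mem_univ _, h4, hp.le⟩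
      rw [hB, Finset.mem_insert, Finset.mem_singleton] at h5
      rcases h5 with h5 | h5
      · rw [h5, ← h3] at hp
        exact absurd hp (lt_irrefl _)
      · exact hpy h5
    · refine ⟨x, lt_of_le_of_ne hx'.2 (by rw [h3]; exact hxy.symm), hx'.1, fun p hp hpy => ?_⟩
      by_contra h4
      have h5 : p ∈ Finset.univ.filter fun p => w p ≠ 6 ∧ 5 ≤ p :=
        Finset.mem_filter.2 ⟨Finset.mem_univ _, h4, hp.le⟩
      rw [hB, Finset.mem_insert, Finset.mem_singleton] at h5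
      rcases h5 with h5 | h5
      · exact hpy h5
      · rw [h5, ← h3] at hp
        exact absurd hp (lt_irrefl _)
  obtain ⟨hz5, hz6, hz7⟩ := hz
  obtain ⟨p0, hp0, hu0⟩ := nk_one hNw.1
  obtain ⟨r5, hr5, hu5⟩ := nk_one hNw.2.2.1
  have hr : (5 : Fin 21) = r5 := hu5 5 hw55
  subst hr
  have hv4 := vals4 (u := w) (k1 := 0) (k2 := 2) (k3 := 5) (k4 := 6) (by decide) (by decide) (by decide) (by decide)
    (by decide) (by decide) (by omega)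
  have hp05 : p0 ≠ 5 := by
    intro h3
    rw [h3, hw55] at hp0
    omega
  have hwe : w = uB p0 z := by
    funext p
    unfold uB
    by_cases e0 : p = p0
    · rw [if_pos e0, e0, hp0]
    · rw [if_neg e0]
      by_cases e1 : p = 5
      · rw [if_pos e1, e1, hw55]
      · rw [if_neg e1]
        by_cases e2 : p < 5 ∨ p = z
        · rw [if_pos e2]
          have h6 : w p ≠ 6 := by
            rcases e2 with e2 | e2
            · exact hw5 p e2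
            · rw [e2]; exact hz6
          rcases hv4 p with h3 | h3 | h3 | h3
          · exact absurd (hu0 p h3) e0
          · exact h3
          · exact absurd (hu5 p h3) e1
          · exact absurd h3 h6
        · rw [if_neg e2]
          push Not at e2
          exact hz7 p (lt_of_le_of_ne e2.1 (Ne.symm e1)) e2.2
  by_cases h3 : p0 < 5
  · rw [hwe] at hw
    exact absurd ⟨hw.h3, hw.h4⟩ (chkB p0 z h3 hz5)
  · have h4 : p0 = z := by
      by_contra h5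
      have := hz7 p0 (lt_of_le_of_ne (not_lt.1 h3) (Ne.symm hp05)) h5
      omega
    subst h4
    refine ⟨p0, 5, 5, fun h4 => h3 ((on5 p0).1 h4), hp05.symm, hp0, fun p hp => ?_⟩
    rw [hwe]
    unfold uB
    rw [if_neg hp]
    by_cases e1 : p = 5
    · rw [if_pos e1, if_pos e1, if_neg]
      rw [on5, e1]
      exact lt_irrefl _
    · rw [if_neg e1, if_neg e1]
      by_cases e2 : p < 5
      · rw [if_pos (Or.inl e2), if_pos ((on5 p).2 e2)]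
      · rw [if_neg (by rintro (h4 | h4); exacts [e2 h4, hp h4]), if_neg fun h4 => e2 ((on5 p).1 h4)]

/-- THE END GAME. -/
theorem Facts.res {u : Fin 21 → ℕ} (h : Facts u) : Res u := by
  rcases h.N with h1 | h1
  · exact caseB h h1
  · exact caseA h h1

/-- The class level for at most 6 points in each class, from the two possible vectors of numbers. -/
theorem res_of_conf (C : Conf) (h6 : ∀ p, C.u p ≤ 6)
    (hN : (nk C.u 0 = 1 ∧ nk C.u 2 = 5 ∧ nk C.u 5 = 1 ∧ nk C.u 6 = 14) ∨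
      (nk C.u 0 = 1 ∧ nk C.u 1 = 1 ∧ nk C.u 2 = 4 ∧ nk C.u 6 = 15)) : Res C.u :=
  Facts.res
    { W := fun a => by
        have := C.W_le (a := a)
        unfold Conf.W at this
        rw [Fin.sum_univ_five]
        exact this
      N := hN
      h1 := pos1 C h6
      h2 := pos2 C h6
      h3 := pos3 C h6
      h4 := pos4 C h6 }

end Pool.Agent.Lib.MP_4dc748_co.CL
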