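import Pool.Agent.Lib.MP_4dc748_co.CL.End
import Pool.Agent.Lib.MP_4dc748_co.CL82.Cor
import Pool.Agent.Lib.MP_4dc748_co.AB.Main
import Pool.Agent.Lib.MP_4dc748_co.C7.NoSeven

/-!
# No arc with 99 points, from the class level configuration
-/

set_option autoImplicit false

namespace Pool.Agent.Lib.MP_4dc748_co.CL

open Pool.Agent.Lib.MP_4dc748_co.RS Pool.Agent.Lib.MP_4dc748_co.LL

theorem sz_le8 : ∀ c ≤ 22, sz c ≤ 8 := by decide

/-- A smaller family. -/
theorem LineBound_mono {s : F4 ≃+* F4} {n : ℕ} {K K' : Fin 21 → Finset (F4 × F4)} (h : LineBound s n K)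
    (hK : ∀ p, K' p ⊆ K p) : LineBound s n K' := by
  intro a c
  refine le_trans (Finset.sum_le_sum fun p _ => ?_) (h a c)
  by_cases h1 : vec a ⬝ᵥ vec p = 0
  · rw [if_pos h1, if_pos h1]
    exact Finset.card_le_card (Finset.filter_subset_filter _ (hK p))
  · rw [if_neg h1]
    exact Nat.zero_le _

/-- Removing points. -/
theorem exists_sub {m : ℕ} (K : Fin 21 → Finset (F4 × F4)) (h : m ≤ ∑ p, (K p).card) :
    ∃ K' : Fin 21 → Finset (F4 × F4), (∀ p, K' p ⊆ K p) ∧ ∑ p, (K' p).card = m := by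
  classical
  rw [← Finset.card_sigma] at h
  obtain ⟨T, hT, hc⟩ := Finset.exists_subset_card_eq h
  refine ⟨fun p => (K p).filter fun t => (⟨p, t⟩ : (_ : Fin 21) × (F4 × F4)) ∈ T,
    fun p => Finset.filter_subset _ _, ?_⟩
  rw [← Finset.card_sigma, ← hc]
  congr 1
  ext ⟨p, t⟩
  rw [Finset.mem_sigma]
  simp only [Finset.mem_univ, true_and, Finset.mem_filter]
  constructor
  · exact fun h1 => h1.2
  · intro h1
    have h2 := hT h1
    rw [Finset.mem_sigma] at h2
    exact ⟨h2.2, h1⟩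

/-- There is no arc with 99 points. -/
theorem no99 (K : Fin 21 → Finset (F4 × F4)) (hK : LineBound F4.frob 7 K) (h99 : ∑ p, (K p).card = 99)
    (C : Conf) (hC : ∀ p, C.u p = (K p).card) : False := by
  have h8 : ∀ p, C.u p ≤ 8 := by
    intro p
    have h1 : on (cl p 0) p := by
      rw [on_comm]
      exact cl_on p 0
    rw [← C.hsz _ _ h1]
    exact sz_le8 _ (C.hc _ _ h1)
  have h7 := CL82.no8 C h8
  by_cases h77 : ∃ p, C.u p = 7
  · refine C7.no_seven K hK h99 (fun p => by rw [← hC]; exact h7 p) ?_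
    obtain ⟨p, hp⟩ := h77
    exact ⟨p, by rw [← hC]; exact hp⟩
  · push Not at h77
    have h6 : ∀ p, C.u p ≤ 6 := fun p => by
      have h1 := h7 p
      have h2 := h77 p
      omega
    have hv := CL82.vec6 C h6
    have hR : Res C.u := by
      refine res_of_conf C h6 ?_
      rcases hv with h | h
      · left
        exact ⟨h.1, h.2.2.1, h.2.2.2.2.2.1, h.2.2.2.2.2.2⟩
      · right
        exact ⟨h.1, h.2.1, h.2.2.1, h.2.2.2.2.2.2⟩
    obtain ⟨Z, l, P, hl, hP, hZ, hs⟩ := hR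
    refine AB.no_AB hK hl hP (by rw [← hC]; exact hZ) fun p hp => ?_
    rw [← hC]
    exact hs p hp

/-- At most 98 points, from class level configurations. -/
theorem le98 (hconf : ∀ K : Fin 21 → Finset (F4 × F4), LineBound F4.frob 7 K → ∑ p, (K p).card = 99 →
      ∃ C : Conf, ∀ p, C.u p = (K p).card)
    (K : Fin 21 → Finset (F4 × F4)) (hK : LineBound F4.frob 7 K) : ∑ p, (K p).card ≤ 98 := by
  by_contra h
  obtain ⟨K', h1, h2⟩ := exists_sub (m := 99) K (by omega)
  have h3 := LineBound_mono hK h1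
  obtain ⟨C, hC⟩ := hconf K' h3 h2
  exact no99 K' h3 h2 C hC

end Pool.Agent.Lib.MP_4dc748_co.CL
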